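import Mathlib
import Pool.Agent.N600.G3.Stm

/-!
# G3/SEC: second moment lemma
-/

set_option autoImplicit false

namespace Pool.Agent.N713.G3

open Pool.Agent.N600.G3
open Finset

universe u

section count

variable {A : Type} [Fintype A] {R : ℕ}

open Classical in
theorem count1 {r r' : Fin R} (h : r ≠ r') (a a' : A) :
    (univ.filter fun x : Fin R → A => x r = a ∧ x r' = a').card * Fintype.card A ^ 2 =
      Fintype.card A ^ R := by
  have e : (univ.filter fun x : Fin R → A => x r = a ∧ x r' = a') =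
      Fintype.piFinset fun i : Fin R => if i = r then {a} else if i = r' then {a'} else univ := by
    ext x
    rw [mem_filter, Fintype.mem_piFinset]
    constructor
    · rintro ⟨-, h1, h2⟩ i
      split_ifs with h3 h4
      · subst h3; simpa using h1
      · subst h4; simpa using h2
      · exact mem_univ _
    · intro h1
      refine ⟨mem_univ _, ?_, ?_⟩
      · have := h1 r
        simpa using this
      · have := h1 r'
        rw [if_neg h.symm] at this
        simpa using this
  rw [e, Fintype.card_piFinset]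
  have e1 : Fintype.card A = ∏ i : Fin R, if i = r then Fintype.card A else 1 := by
    rw [prod_ite_eq' univ r]; simp
  have e2 : Fintype.card A = ∏ i : Fin R, if i = r' then Fintype.card A else 1 := by
    rw [prod_ite_eq' univ r']; simp
  have e3 : Fintype.card A ^ 2 = (∏ i : Fin R, if i = r then Fintype.card A else 1) *
      ∏ i : Fin R, if i = r' then Fintype.card A else 1 := by
    rw [← e1, ← e2, pow_two]
  rw [e3, ← prod_mul_distrib, ← prod_mul_distrib]
  have e4 : Fintype.card A ^ R = ∏ _i : Fin R, Fintype.card A := by simp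
  rw [e4]
  refine prod_congr rfl fun i _ => ?_
  by_cases h1 : i = r
  · subst h1
    simp [h]
  · by_cases h2 : i = r'
    · subst h2
      simp [h1]
    · simp [h1, h2]

open Classical in
theorem count2 {r r' : Fin R} (h : r ≠ r') (E : A → A → Prop) :
    (univ.filter fun x : Fin R → A => E (x r) (x r')).card * Fintype.card A ^ 2 =
      Fintype.card A ^ R * (univ.filter fun p : A × A => E p.1 p.2).card := by
  have h1 := card_eq_sum_card_fiberwise (s := univ.filter fun x : Fin R → A => E (x r) (x r'))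
    (t := univ.filter fun p : A × A => E p.1 p.2) (f := fun x => (x r, x r')) (by
      intro x hx
      simpa using hx)
  rw [h1, sum_mul]
  rw [sum_congr rfl (g := fun _ => Fintype.card A ^ R)]
  · rw [sum_const, smul_eq_mul, mul_comm]
  · intro p hp
    rw [← count1 h p.1 p.2]
    congr 2
    ext x
    simp only [mem_filter, mem_univ, true_and]
    constructor
    · rintro ⟨-, h3⟩
      exact ⟨congrArg Prod.fst h3, congrArg Prod.snd h3⟩
    · rintro ⟨h3, h4⟩
      refine ⟨?_, Prod.ext h3 h4⟩
      rw [h3, h4]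
      exact (mem_filter.1 hp).2

end count

/-- the number of values and the number of coincidences -/
theorem ncard_ge {Γ : Type u} {R : ℕ} (f : Fin R → Γ) [DecidableEq Γ] :
    (R : ℝ) - (∑ r, ∑ r', if f r = f r' then (1 : ℝ) else 0) / 4 ≤
      ((Set.range f).ncard : ℝ) := by
  have e0 : (Set.range f).ncard = (univ.image f).card := by
    rw [← Set.ncard_coe_finset]
    simp
  rw [e0]
  have e1 : ∀ r, ∑ r', (if f r = f r' then (1 : ℝ) else 0) =
      ((univ.filter fun a => f a = f r).card : ℝ) := by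
    intro r
    rw [card_filter]
    push_cast
    refine sum_congr rfl fun r' _ => ?_
    simp only [eq_comm]
  simp only [e1]
  have e2 : ∑ r, ((univ.filter fun a => f a = f r).card : ℝ) =
      ∑ y ∈ univ.image f, ((univ.filter fun a => f a = y).card : ℝ) *
        ((univ.filter fun a => f a = y).card : ℝ) := by
    rw [sum_comp (fun y => ((univ.filter fun a => f a = y).card : ℝ)) f]
    simp only [nsmul_eq_mul]
  have e3 : (R : ℝ) = ∑ y ∈ univ.image f, ((univ.filter fun a => f a = y).card : ℝ) := by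
    have := sum_comp (s := univ) (fun _ : Γ => (1 : ℝ)) f
    simp only [nsmul_eq_mul, mul_one, sum_const, card_univ, Fintype.card_fin] at this
    exact this
  have e4 : ((univ.image f).card : ℝ) = ∑ y ∈ univ.image f, (1 : ℝ) := by simp
  rw [e2, e4]
  conv_lhs => rw [e3]
  rw [sum_div, ← sum_sub_distrib]
  refine sum_le_sum fun y _ => ?_
  nlinarith [sq_nonneg (((univ.filter fun a => f a = y).card : ℝ) - 2)]

theorem pow_inj {Γ₀ : Type u} [LinearOrderedCommGroupWithZero Γ₀] {γ : Γ₀} (h0 : γ ≠ 0)
    (h1 : γ ≠ 1) : Function.Injective fun n : ℕ => γ ^ n := by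
  rcases lt_or_gt_of_ne h1 with h | h
  · exact (pow_right_strictAnti₀ (zero_lt_iff.2 h0) h).injective
  · exact (pow_right_strictMono₀ h).injective

theorem t_sec : S_SEC.{u} := by
  classical
  intro Γ₀ _ γ hγ0 hγ1 A _ _ σ hσ R
  set q := Fintype.card A with hq
  have hq0 : 0 < q := Fintype.card_pos
  -- uniqueness
  have huniq : ∀ (r : Fin R) (p : A × A), (∑ r' : Fin R,
      if γ ^ (r : ℕ) * σ p.1 = γ ^ (r' : ℕ) * σ p.2 then 1 else 0) ≤ 1 := by
    intro r p
    rw [← card_filter, card_le_one]
    intro a ha b hb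
    rw [mem_filter] at ha hb
    have h1 := ha.2.symm.trans hb.2
    have h2 := mul_right_cancel₀ (hσ p.2) h1
    exact Fin.ext (pow_inj hγ0 hγ1 h2)
  have hrow : ∀ r : Fin R, (∑ r' : Fin R, (univ.filter fun p : A × A =>
      γ ^ (r : ℕ) * σ p.1 = γ ^ (r' : ℕ) * σ p.2).card) ≤ q ^ 2 := by
    intro r
    simp only [card_filter]
    rw [sum_comm]
    refine (sum_le_sum fun p _ => huniq r p).trans ?_
    simp [hq, pow_two]
  have hN : ∀ r r' : Fin R, (univ.filter fun x : Fin R → A =>
      γ ^ (r : ℕ) * σ (x r) = γ ^ (r' : ℕ) * σ (x r')).card * q ^ 2 ≤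
      q ^ R * (univ.filter fun p : A × A => γ ^ (r : ℕ) * σ p.1 = γ ^ (r' : ℕ) * σ p.2).card +
        (if r = r' then q ^ R * q ^ 2 else 0) := by
    intro r r'
    by_cases h : r = r'
    · rw [if_pos h]
      have h1 : (univ.filter fun x : Fin R → A =>
          γ ^ (r : ℕ) * σ (x r) = γ ^ (r' : ℕ) * σ (x r')).card ≤ q ^ R := by
        refine (card_le_univ _).trans ?_
        simp [hq]
      have h2 := Nat.mul_le_mul_right (q ^ 2) h1
      omega
    · rw [if_neg h, add_zero]
      have h3 := count2 h fun a a' => γ ^ (r : ℕ) * σ a = γ ^ (r' : ℕ) * σ a'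
      rw [← hq] at h3
      refine le_of_eq ?_
      convert h3
  have hT0 : ∀ r : Fin R, (∑ r' : Fin R, (univ.filter fun x : Fin R → A =>
      γ ^ (r : ℕ) * σ (x r) = γ ^ (r' : ℕ) * σ (x r')).card) ≤ 2 * q ^ R := by
    intro r
    have h1 : (∑ r' : Fin R, (univ.filter fun x : Fin R → A =>
        γ ^ (r : ℕ) * σ (x r) = γ ^ (r' : ℕ) * σ (x r')).card) * q ^ 2 ≤
        (2 * q ^ R) * q ^ 2 := by
      rw [sum_mul]
      refine (sum_le_sum fun r' _ => hN r r').trans ?_
      rw [sum_add_distrib, ← mul_sum]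
      have h2 := Nat.mul_le_mul_left (q ^ R) (hrow r)
      have h3 : (∑ r' : Fin R, if r = r' then q ^ R * q ^ 2 else 0) = q ^ R * q ^ 2 := by
        simp
      rw [h3]
      linarith
    exact Nat.le_of_mul_le_mul_right h1 (by positivity)
  have hT : ∑ x : Fin R → A, ∑ r : Fin R, ∑ r' : Fin R,
      (if γ ^ (r : ℕ) * σ (x r) = γ ^ (r' : ℕ) * σ (x r') then (1 : ℝ) else 0) ≤
      R * (2 * (q : ℝ) ^ R) := by
    rw [sum_comm]
    have h1 : ∀ r : Fin R, ∑ x : Fin R → A, ∑ r' : Fin R,
        (if γ ^ (r : ℕ) * σ (x r) = γ ^ (r' : ℕ) * σ (x r') then (1 : ℝ) else 0) ≤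
        2 * (q : ℝ) ^ R := by
      intro r
      rw [sum_comm]
      have h2 := hT0 r
      simp only [card_filter] at h2
      exact_mod_cast h2
    refine (sum_le_sum fun r _ => h1 r).trans ?_
    simp
  have hfin : ∑ x : Fin R → A, ((R : ℝ) - (∑ r : Fin R, ∑ r' : Fin R,
      (if γ ^ (r : ℕ) * σ (x r) = γ ^ (r' : ℕ) * σ (x r') then (1 : ℝ) else 0)) / 4) ≤
      ∑ x : Fin R → A, ((Set.range fun r : Fin R => γ ^ (r : ℕ) * σ (x r)).ncard : ℝ) :=
    sum_le_sum fun x _ => ncard_ge fun r : Fin R => γ ^ (r : ℕ) * σ (x r)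
  refine le_trans ?_ hfin
  rw [sum_sub_distrib, ← sum_div]
  have h5 : ∑ _x : Fin R → A, (R : ℝ) = (q : ℝ) ^ R * R := by
    rw [sum_const, card_univ, Fintype.card_fun, Fintype.card_fin, nsmul_eq_mul]
    push_cast
    rfl
  rw [h5]
  linarith

end Pool.Agent.N713.G3
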